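import Pool.Agent.Helper81.RC.C3Fin

/-!
# MP_89b535_an: the exact bifurcation radius at the real period three centre

For the real superattracting parameter `c` of period three (`c³ + 2c² + c + 1 = 0`), the total
orbit of `0` is bounded exactly for `r ≤ r_bif(c)`, and `r_bif(c)` is the level `r` of the unique
conjugation symmetric critical cycle of the controlled map (an explicit polynomial system).
-/

set_option autoImplicit false

namespace Pool.Agent.Results.MP_89b535_an.AirplaneRadius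

open Complex

/-- `f_c(z) = z² + c`, as an element of the monoid of self-maps of `ℂ` under composition. -/
def quad (c : ℂ) : Function.End ℂ := fun z => z ^ 2 + c

/-- The semigroup `G_{c,r}` generated, under composition, by the maps `f_{c'}` with
`|c' - c| ≤ r`. -/
def G (c : ℂ) (r : ℝ) : Subsemigroup (Function.End ℂ) :=
  Subsemigroup.closure {g | ∃ c' : ℂ, ‖c' - c‖ ≤ r ∧ g = quad c'}

/-- The set of total orbits of the critical point `0`: `{g(0) : g ∈ G_{c,r}}`. -/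
def totalOrbit (c : ℂ) (r : ℝ) : Set ℂ := {z | ∃ g ∈ G c r, z = g 0}

/-- The bifurcation radius of a superattracting centre `c`:
`r_bif(c) = sup {r ≥ 0 : {g(0) : g ∈ G_{c,r}} is bounded}`. -/
noncomputable def rbif (c : ℂ) : ℝ := sSup {r : ℝ | 0 ≤ r ∧ Bornology.IsBounded (totalOrbit c r)}

/-- A conjugation symmetric critical cycle of period three, at noise level `r`: points
`Z₀, Z₁, Z₂` and unit normals `N₁, N₂, N₃` with `Z₁ = Z₀² + c + r N₁`, `Z₂ = Z₁² + c + r N₂`,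
`conj Z₀ = Z₂² + c + r N₃`, the normals being transported by the derivative, and
`|2 Z₀ · 2 Z₁ · 2 Z₂| = 1`. -/
def CriticalCycle (c r : ℝ) (Z₀ Z₁ Z₂ N₁ N₂ N₃ : ℂ) : Prop :=
  ‖N₁‖ = 1 ∧ ‖N₂‖ = 1 ∧ ‖N₃‖ = 1 ∧
  Z₁ = Z₀ ^ 2 + c + r * N₁ ∧ Z₂ = Z₁ ^ 2 + c + r * N₂ ∧
  (starRingEnd ℂ) Z₀ = Z₂ ^ 2 + c + r * N₃ ∧
  Z₀ * (starRingEnd ℂ) N₃ = ‖Z₀‖ * N₁ ∧ Z₁ * N₁ = ‖Z₁‖ * N₂ ∧ Z₂ * N₂ = ‖Z₂‖ * N₃ ∧
  8 * (‖Z₀‖ * ‖Z₁‖ * ‖Z₂‖) = 1

/-- The six complex numbers are within `1/2000` of explicit decimal numbers. -/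
def Near (Z₀ Z₁ Z₂ N₁ N₂ N₃ : ℂ) : Prop :=
  ‖Z₀ - ⟨0.02656, -0.04621⟩‖ ≤ 1 / 2000 ∧ ‖Z₁ - ⟨-1.75735, -0.00423⟩‖ ≤ 1 / 2000 ∧
  ‖Z₂ - ⟨1.33443, 0.01664⟩‖ ≤ 1 / 2000 ∧ ‖N₁ - ⟨-0.50722, -0.86182⟩‖ ≤ 1 / 2000 ∧
  ‖N₂ - ⟨0.50515, 0.86303⟩‖ ≤ 1 / 2000 ∧ ‖N₃ - ⟨0.49434, 0.86927⟩‖ ≤ 1 / 2000

/-- The bifurcation radius at the real period three centre. There is exactly one real `c` with
`c³ + 2c² + c + 1 = 0`, and for it: the total orbit is bounded exactly for `r ≤ r_bif(c)`;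
`r_bif(c)` is the only `r` in `[0.00106, 0.00306]` for which the critical cycle equations have a
solution near the given numbers; and `r_bif(c) = 0.0020591719838311…`. -/
theorem result :
    (∃! c : ℝ, c ^ 3 + 2 * c ^ 2 + c + 1 = 0) ∧
    ∀ c : ℝ, c ^ 3 + 2 * c ^ 2 + c + 1 = 0 →
      (∀ r : ℝ, Bornology.IsBounded (totalOrbit c r) ↔ r ≤ rbif c) ∧
      (∀ r : ℝ, (|r - 0.00206| ≤ 1 / 1000 ∧ ∃ Z₀ Z₁ Z₂ N₁ N₂ N₃ : ℂ,
        Near Z₀ Z₁ Z₂ N₁ N₂ N₃ ∧ CriticalCycle c r Z₀ Z₁ Z₂ N₁ N₂ N₃) ↔ r = rbif c) ∧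
      0.0020591719838310 < rbif c ∧ rbif c < 0.0020591719838313 := by
  refine ⟨?_, ?_⟩
  · obtain ⟨c, hc⟩ := Helper81.RC.C3.root_exists
    exact ⟨c, hc, fun b hb => Helper81.RC.C3.root_unique hb hc⟩
  intro c hc3
  have hc := Helper81.RC.C3.c_enc hc3
  obtain ⟨x, hx1, hx2, -⟩ := Helper81.RC.C3.exists_sol1 c hc
  have hb : ∀ j, |x j - (Helper81.RC.C3.X j : ℝ) / Helper81.RC.C3.S|
      ≤ (Helper81.RC.C3.R : ℝ) / Helper81.RC.C3.S := by
    intro j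
    refine (hx1 j).trans ?_
    norm_num [Helper81.RC.C3.R, Helper81.RC.C3.S]
  have hiff : ∀ r : ℝ, Bornology.IsBounded (totalOrbit c r) ↔ r ≤ x 15 :=
    fun r => Helper81.RC.C3.main hc3 hx2 hb r
  have hR : rbif c = x 15 := by
    have h15 := Helper81.RC.C3.enc15 hb
    rw [abs_le] at h15
    have hset : {r' : ℝ | 0 ≤ r' ∧ Bornology.IsBounded (totalOrbit c r')} = Set.Icc 0 (x 15) := by
      ext r'
      simp only [Set.mem_ofPred_eq, Set.mem_Icc, hiff]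
    unfold rbif
    rw [hset]
    exact csSup_Icc (by linarith [h15.1])
  rw [hR]
  refine ⟨hiff, ?_, ?_, ?_⟩
  · intro r
    constructor
    · rintro ⟨hr, Z₀, Z₁, Z₂, N₁, N₂, N₃, h1, h2⟩
      obtain ⟨z, hz1, hz2, hz3⟩ := Helper81.RC.C3.exists_sol2 c hc
      have e1 := hz3 _ (Helper81.RC.C3.vec_near h1 hr) (Helper81.RC.C3.vec_sol h2)
      have e2 := hz3 x (fun j => (hx1 j).trans (by
        norm_num [Helper81.RC.C3.R2, Helper81.RC.C3.S])) hx2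
      rw [← e1] at e2
      have e3 := congrFun e2 15
      rw [e3]
      rfl
    · rintro rfl
      obtain ⟨h1, h2⟩ := Helper81.RC.C3.cycle_of_sol hx2 hb
      have h15 := Helper81.RC.C3.enc15 hb
      rw [abs_le] at h15
      refine ⟨?_, _, _, _, _, _, _, h1, h2⟩
      rw [abs_le]
      constructor <;> linarith [h15.1, h15.2]
  · have h := hx1 15
    norm_num [Helper81.RC.C3.X, Helper81.RC.C3.XL, Helper81.RC.C3.S] at h
    rw [abs_le] at h
    linarith [h.1]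
  · have h := hx1 15
    norm_num [Helper81.RC.C3.X, Helper81.RC.C3.XL, Helper81.RC.C3.S] at h
    rw [abs_le] at h
    linarith [h.2]

end Pool.Agent.Results.MP_89b535_an.AirplaneRadius
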