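import Pool.Agent.Helper85.RBF.Low

/-!
# MP_89b535_an: a two sided formula for `r_bif` at every superattracting centre

For every superattracting centre `c` of period `p`, with `z_j = f_c^j(0)`,
`Λ_j = ∏_{0<i<j} 2|z_i|`, `Λ = Λ_p`, `W = ∑_{j=1}^p 1/Λ_j` and
`κ = ∑_{0<j<p} Λ_j / (2 |z_j| Λ²)`:
`1 / (4 W Λ² (1 + κ)) ≤ r_bif(c) ≤ 1 / (4 W Λ²)`.
-/

set_option autoImplicit false

namespace Pool.Agent.Results.MP_89b535_an.AllCentres

open Complex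

/-- `f_c(z) = z² + c`, as an element of the monoid of self-maps of `ℂ` under composition. -/
def quad (c : ℂ) : Function.End ℂ := fun z => z ^ 2 + c

/-- The semigroup `G_{c,r}` generated, under composition, by the maps `f_{c'}` with
`|c' - c| ≤ r`. -/
def G (c : ℂ) (r : ℝ) : Subsemigroup (Function.End ℂ) :=
  Subsemigroup.closure {g | ∃ c' : ℂ, ‖c' - c‖ ≤ r ∧ g = quad c'}

/-- The set of total orbits of the critical point `0`: `{g(0) : g ∈ G_{c,r}}`. -/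
def totalOrbit (c : ℂ) (r : ℝ) : Set ℂ := {z | ∃ g ∈ G c r, z = g 0}

/-- The bifurcation radius of a superattracting centre `c`:
`r_bif(c) = sup {r ≥ 0 : {g(0) : g ∈ G_{c,r}} is bounded}`. -/
noncomputable def rbif (c : ℂ) : ℝ := sSup {r : ℝ | 0 ≤ r ∧ Bornology.IsBounded (totalOrbit c r)}

/-- The critical orbit `z_j = f_c^j(0)`. -/
def orb (c : ℂ) (j : ℕ) : ℂ := (fun z : ℂ => z ^ 2 + c)^[j] 0

/-- `c` is a superattracting centre of (exact) period `p`. -/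
def IsCentre (c : ℂ) (p : ℕ) : Prop := 1 ≤ p ∧ orb c p = 0 ∧ ∀ j, 0 < j → j < p → orb c j ≠ 0

/-- `Lam c j = ∏_{0 < i < j} 2 |z_i| = |(f_c^{j-1})'(c)|`. -/
noncomputable def Lam (c : ℂ) (j : ℕ) : ℝ := ∏ i ∈ Finset.Ico 1 j, (2 * ‖orb c i‖)

/-- `W c p = ∑_{j=1}^p 1 / Lam c j`. -/
noncomputable def W (c : ℂ) (p : ℕ) : ℝ := ∑ j ∈ Finset.Ico 1 (p + 1), (Lam c j)⁻¹

/-- `kap c p = ∑_{0 < j < p} Lam c j / (2 |z_j| (Lam c p)²)`. -/
noncomputable def kap (c : ℂ) (p : ℕ) : ℝ :=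
  ∑ j ∈ Finset.Ico 1 p, Lam c j / (2 * ‖orb c j‖ * Lam c p ^ 2)

theorem result (c : ℂ) (p : ℕ) (h : IsCentre c p) :
    1 / (4 * W c p * Lam c p ^ 2 * (1 + kap c p)) ≤ rbif c ∧
      rbif c ≤ 1 / (4 * W c p * Lam c p ^ 2) :=
  Helper85.RBF.two_all h.1 h.2.1 h.2.2

end Pool.Agent.Results.MP_89b535_an.AllCentres
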