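import Pool.Agent.Helper81.RB.Main

/-!
# MP_89b535_an: the exact bifurcation radius at the centre `-1`

`r_bif(-1)` is determined exactly: `16 r_bif(-1)²` is the least positive root of an explicit
integer polynomial of degree 8, `r_bif(-1) = 0.0398863595014958…`, and the total orbit of `0` is
bounded exactly for `r ≤ r_bif(-1)`.
-/

set_option autoImplicit false

namespace Pool.Agent.Results.MP_89b535_an.BasilicaRadius

open Complex Pool.Agent.Helper81.RB

/-- `f_c(z) = z² + c`, as an element of the monoid of self-maps of `ℂ` under composition. -/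
def quad (c : ℂ) : Function.End ℂ := fun z => z ^ 2 + c

/-- The semigroup `G_{c,r}` generated, under composition, by the maps `f_{c'}` with
`|c' - c| ≤ r`. -/
def G (c : ℂ) (r : ℝ) : Subsemigroup (Function.End ℂ) :=
  Subsemigroup.closure {g | ∃ c' : ℂ, ‖c' - c‖ ≤ r ∧ g = quad c'}

/-- The set of total orbits of the critical point `0`: `{g(0) : g ∈ G_{c,r}}`. -/
def totalOrbit (c : ℂ) (r : ℝ) : Set ℂ := {z | ∃ g ∈ G c r, z = g 0}

/-- The bifurcation radius of a superattracting centre `c`: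
`r_bif(c) = sup {r ≥ 0 : {g(0) : g ∈ G_{c,r}} is bounded}`. -/
noncomputable def rbif (c : ℂ) : ℝ := sSup {r : ℝ | 0 ≤ r ∧ Bornology.IsBounded (totalOrbit c r)}

theorem orbit_base {c : ℂ} {r : ℝ} (c' : ℂ) (h : ‖c' - c‖ ≤ r) : c' ∈ totalOrbit c r := by
  refine ⟨quad c', Subsemigroup.subset_closure ⟨c', h, rfl⟩, ?_⟩
  simp [quad]

theorem orbit_step {c : ℂ} {r : ℝ} (z c' : ℂ) (hz : z ∈ totalOrbit c r) (h : ‖c' - c‖ ≤ r) :
    z ^ 2 + c' ∈ totalOrbit c r := by
  obtain ⟨g, hg, rfl⟩ := hz
  exact ⟨quad c' * g, Subsemigroup.mul_mem _ (Subsemigroup.subset_closure ⟨c', h, rfl⟩) hg, rfl⟩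

theorem orbit_ind {c : ℂ} {r : ℝ} (p : ℂ → Prop) (h1 : ∀ c' : ℂ, ‖c' - c‖ ≤ r → p c')
    (h2 : ∀ z c' : ℂ, p z → ‖c' - c‖ ≤ r → p (z ^ 2 + c')) :
    ∀ z ∈ totalOrbit c r, p z := by
  have key : ∀ g ∈ G c r, p (g 0) ∧ ∀ z, p z → p (g z) := by
    intro g hg
    induction hg using Subsemigroup.closure_induction with
    | mem x hx =>
      obtain ⟨c', hc', rfl⟩ := hx
      refine ⟨?_, fun z hz => h2 z c' hz hc'⟩
      have : quad c' 0 = c' := by simp [quad]
      rw [this]; exact h1 c' hc'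
    | mul x y hx hy ihx ihy =>
      exact ⟨ihx.2 _ ihy.1, fun z hz => ihx.2 _ (ihy.2 z hz)⟩
  rintro z ⟨g, hg, rfl⟩
  exact (key g hg).1

theorem orbit_conj {r : ℝ} (z : ℂ) (hz : z ∈ totalOrbit (-1) r) :
    (starRingEnd ℂ) z ∈ totalOrbit (-1) r := by
  refine orbit_ind (fun z => (starRingEnd ℂ) z ∈ totalOrbit (-1) r) ?_ ?_ z hz
  · intro c' hc'
    apply orbit_base
    have e : (starRingEnd ℂ) c' - (-1) = (starRingEnd ℂ) (c' - (-1)) := by simp
    rw [e, Complex.norm_conj]; exact hc'
  · intro w c' hw hc'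
    have e : (starRingEnd ℂ) (w ^ 2 + c') = ((starRingEnd ℂ) w) ^ 2 + (starRingEnd ℂ) c' := by simp
    simp only [e]
    apply orbit_step _ _ hw
    have e : (starRingEnd ℂ) c' - (-1) = (starRingEnd ℂ) (c' - (-1)) := by simp
    rw [e, Complex.norm_conj]; exact hc'

theorem result :
    (∀ r : ℝ, Bornology.IsBounded (totalOrbit (-1) r) ↔ r ≤ rbif (-1)) ∧
    IsLeast {T : ℝ | 0 < T ∧
      30517578125 * T ^ 8 - 2090937500000 * T ^ 7 + 151988969837500 * T ^ 6
        + 366932312094336 * T ^ 5 + 10972611745620350 * T ^ 4 + 43251113860921120 * T ^ 3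
        + 542403358868884124 * T ^ 2 - 119457415511718464 * T + 2688593226971549 = 0}
      (16 * rbif (-1) ^ 2) ∧
    0.03988635950149 < rbif (-1) ∧ rbif (-1) < 0.03988635950150 := by
  obtain ⟨t, m, m1, cD, sD, cP, sP, uR, uI, vR, vI, r, ht1, ht2, hr, C⟩ := exists_cyc
  have nr := C.nr
  rw [abs_le] at nr
  have hrpos : 0 < r := by linarith [nr.1]
  have hiff : ∀ r' : ℝ, Bornology.IsBounded (totalOrbit (-1) r') ↔ r' ≤ r := by
    intro r'
    constructor
    · intro hb
      by_contra hlt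
      rw [not_le] at hlt
      obtain ⟨B, hB⟩ := isBounded_iff_forall_norm_le.mp hb
      obtain ⟨z, hz, hz2⟩ := unbounded_of_gt C hlt (fun z => z ∈ totalOrbit (-1) r')
        (fun c' h => orbit_base c' h) (fun z c' hz h => orbit_step z c' hz h)
        (fun z hz => orbit_conj z hz) B
      exact absurd (hB z hz) (not_le.mpr hz2)
    · intro hle
      obtain ⟨a, ρ, b, σ, ha, hAB, hBA⟩ := two_discs C
      rw [isBounded_iff_forall_norm_le]
      refine ⟨|a| + ρ + (|b| + σ), ?_⟩
      have hρ : 0 ≤ ρ := (abs_nonneg a).trans ha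
      have h0A : ‖(0:ℂ) - (a:ℂ)‖ ≤ ρ := by
        rw [zero_sub, norm_neg, Complex.norm_real, Real.norm_eq_abs]; exact ha
      have hσ : 0 ≤ σ := (norm_nonneg _).trans (hAB 0 h0A (-1) (by simpa using hrpos.le))
      have hall : ∀ z ∈ totalOrbit (-1) r', ‖z - (a:ℂ)‖ ≤ ρ ∨ ‖z - (b:ℂ)‖ ≤ σ := by
        apply orbit_ind
        · intro c' hc'
          right
          have := hAB 0 h0A c' (hc'.trans hle)
          have e : (0:ℂ) ^ 2 + c' - (b:ℂ) = c' - (b:ℂ) := by ring
          rwa [e] at this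
        · intro z c' hz hc'
          rcases hz with hz | hz
          · right; exact hAB z hz c' (hc'.trans hle)
          · left; exact hBA z hz c' (hc'.trans hle)
      intro z hz
      rcases hall z hz with h | h
      · have h1 := norm_le_norm_add_norm_sub' z (a:ℂ)
        rw [Complex.norm_real, Real.norm_eq_abs] at h1
        have := abs_nonneg b
        linarith
      · have h1 := norm_le_norm_add_norm_sub' z (b:ℂ)
        rw [Complex.norm_real, Real.norm_eq_abs] at h1
        have := abs_nonneg a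
        linarith
  have hsup : rbif (-1) = r := by
    have hset : {r' : ℝ | 0 ≤ r' ∧ Bornology.IsBounded (totalOrbit (-1) r')} = Set.Icc 0 r := by
      ext r'
      simp only [Set.mem_ofPred_eq, Set.mem_Icc, hiff]
    unfold rbif
    rw [hset]
    exact csSup_Icc hrpos.le
  rw [hsup]
  have hoct : oct (16 * r ^ 2) = 0 := by
    have := octic_R t ht2
    rw [hr]
    unfold oct
    exact this
  have hr2 : 16 * r ^ 2 ≤ 1/39 := by nlinarith [nr.1, nr.2]
  refine ⟨hiff, ⟨⟨by positivity, hoct⟩, ?_⟩, ?_, ?_⟩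
  · rintro T ⟨hT, hT2⟩
    by_contra hlt
    rw [not_le] at hlt
    have := oct_anti hT.le hlt hr2
    rw [hoct] at this
    have h2 : oct T = 0 := hT2
    linarith
  · by_contra hle
    rw [not_lt] at hle
    have h0 : oct (16 * (0.03988635950149:ℝ) ^ 2) > 0 := by unfold oct; norm_num
    rcases hle.lt_or_eq with h | h
    · have h3 : 16 * r ^ 2 < 16 * (0.03988635950149:ℝ) ^ 2 := by
        have := pow_lt_pow_left₀ h hrpos.le two_ne_zero
        linarith
      have := oct_anti (by positivity) h3 (by norm_num)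
      linarith
    · rw [h] at hoct
      linarith
  · by_contra hle
    rw [not_lt] at hle
    have h0 : oct (16 * (0.03988635950150:ℝ) ^ 2) < 0 := by unfold oct; norm_num
    rcases hle.lt_or_eq with h | h
    · have h3 : 16 * (0.03988635950150:ℝ) ^ 2 < 16 * r ^ 2 := by
        have := pow_lt_pow_left₀ h (by norm_num) two_ne_zero
        linarith
      have := oct_anti (by positivity) h3 hr2
      linarith
    · rw [← h] at hoct
      linarith

end Pool.Agent.Results.MP_89b535_an.BasilicaRadius
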