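import Pool.Agent.Helper85.RBF.Lim

/-!
# MP_89b535_an: the bifurcation radius of the real centres closest to `-2`

For every `p ≥ 2` the polynomial `y ↦ f_y^p(0)` has a least real zero `c_p`, which is a centre of
exact period `p`, and `16^p r_bif(c_p) → 3π²/4`.
-/

set_option autoImplicit false

namespace Pool.Agent.Results.MP_89b535_an.TipLimit

open Complex Filter Topology

/-- `f_c(z) = z² + c`, as an element of the monoid of self-maps of `ℂ` under composition. -/
def quad (c : ℂ) : Function.End ℂ := fun z => z ^ 2 + c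

/-- The semigroup `G_{c,r}` generated, under composition, by the maps `f_{c'}` with
`|c' - c| ≤ r`. -/
def G (c : ℂ) (r : ℝ) : Subsemigroup (Function.End ℂ) :=
  Subsemigroup.closure {g | ∃ c' : ℂ, ‖c' - c‖ ≤ r ∧ g = quad c'}

/-- The set of total orbits of the critical point `0`: `{g(0) : g ∈ G_{c,r}}`. -/
def totalOrbit (c : ℂ) (r : ℝ) : Set ℂ := {z | ∃ g ∈ G c r, z = g 0}

/-- The bifurcation radius of a superattracting centre `c`:
`r_bif(c) = sup {r ≥ 0 : {g(0) : g ∈ G_{c,r}} is bounded}`. -/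
noncomputable def rbif (c : ℂ) : ℝ := sSup {r : ℝ | 0 ≤ r ∧ Bornology.IsBounded (totalOrbit c r)}

/-- The critical orbit `z_j = f_c^j(0)`. -/
def orb (c : ℂ) (j : ℕ) : ℂ := (fun z : ℂ => z ^ 2 + c)^[j] 0

/-- `c` is a superattracting centre of (exact) period `p`. -/
def IsCentre (c : ℂ) (p : ℕ) : Prop := 1 ≤ p ∧ orb c p = 0 ∧ ∀ j, 0 < j → j < p → orb c j ≠ 0

theorem result :
    (∀ p : ℕ, 2 ≤ p → ∃ x : ℝ, IsLeast {y : ℝ | orb (y : ℂ) p = 0} x ∧ IsCentre (x : ℂ) p) ∧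
    (∀ c : ℕ → ℝ, (∀ p : ℕ, 2 ≤ p → IsLeast {y : ℝ | orb (y : ℂ) p = 0} (c p)) →
      Tendsto (fun p : ℕ => 16 ^ p * rbif (c p)) atTop (𝓝 (3 * Real.pi ^ 2 / 4))) := by
  have hset : ∀ p : ℕ, {y : ℝ | orb (y : ℂ) p = 0} = {x : ℝ | Helper85.RBF.ro x p = 0} := by
    intro p
    ext y
    exact Helper85.RBF.orb_eq_zero_iff y p
  refine ⟨?_, ?_⟩
  · intro p hp
    obtain ⟨x, hx⟩ := Helper85.RBF.exists_least p hp
    have h := Helper85.RBF.LR.of_isLeast hp hx
    refine ⟨x, by rw [hset]; exact hx, by omega, ?_, fun j hj hjp => h.ne j hj hjp⟩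
    exact (Helper85.RBF.orb_eq_zero_iff x p).mpr h.h3
  · intro c hc
    refine Helper85.RBF.main_lim (fun p hp => Helper85.RBF.LR.of_isLeast hp ?_)
    rw [← hset]
    exact hc p hp

end Pool.Agent.Results.MP_89b535_an.TipLimit
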